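import Mathlib
import Pool.Agent.Q147.WeakPc

/-!
# MP_04f724_gt : a non-metrizable compact abelian group determined by all its
`ω`-bounded dense subgroups

The group is `(ZMod 2)^{ω₁}`.
-/

noncomputable section

namespace Pool.Agent.Results.MP_04f724_gt.OmegaBoundedDetermine

open Set Topology

/-- The subgroup `H` is `ω`-bounded: the closure in `H` of every countable subset of `H` is
compact. -/
def OmegaBounded {G : Type} [AddCommGroup G] [TopologicalSpace G] (H : AddSubgroup G) : Prop :=
  ∀ D : Set H, D.Countable → IsCompact (closure D)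

/-- The inclusion of a subgroup. -/
def incl {G : Type} [AddCommGroup G] [TopologicalSpace G] (H : AddSubgroup G) : H →ₜ+ G :=
  { toFun := fun x => x
    map_zero' := rfl
    map_add' := fun _ _ => rfl
    continuous_toFun := continuous_subtype_val }

/-- `H` determines `G`: the restriction map from the dual of `G` to the dual of `H` is a
topological isomorphism (the duals are the groups of continuous homomorphisms to `ℝ/ℤ` with the
compact-open topology; the restriction map is always a homomorphism). -/
def Determines {G : Type} [AddCommGroup G] [TopologicalSpace G] (H : AddSubgroup G) : Prop :=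
  IsHomeomorph (fun χ : G →ₜ+ AddCircle (1 : ℝ) => χ.comp (incl H))

/-- The index set: the countable ordinals. -/
abbrev I : Type := (Cardinal.aleph 1).ord.ToType

/-- The group `(ZMod 2)^{ω₁}`. -/
abbrev G : Type := I → ZMod 2

theorem countable_Iio (i : I) : (Set.Iio i).Countable := by
  have h := Cardinal.mk_Iio_lt i (by simp [I])
  rw [← Cardinal.le_aleph0_iff_set_countable]
  have h3 : Cardinal.mk I = Order.succ Cardinal.aleph0 := by
    rw [Cardinal.succ_aleph0]; simp [I]
  have h4 : Cardinal.mk (Set.Iio i) < Order.succ Cardinal.aleph0 := h3 ▸ h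
  exact Order.lt_succ_iff.1 h4

instance : Uncountable I := by
  rw [← Cardinal.aleph0_lt_mk_iff]
  simp [I]

/-- Membership in the closure in a power of `ZMod 2`. -/
theorem mem_closure_pi {ι : Type} {S : Set (ι → ZMod 2)} {y : ι → ZMod 2} :
    y ∈ closure S ↔ ∀ F : Finset ι, ∃ s ∈ S, ∀ i ∈ F, s i = y i := by
  classical
  constructor
  · intro h F
    have hU : IsOpen {x : ι → ZMod 2 | ∀ i ∈ F, x i = y i} := by
      have : {x : ι → ZMod 2 | ∀ i ∈ F, x i = y i} = ⋂ i ∈ F, {x : ι → ZMod 2 | x i = y i} := by
        ext x; simp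
      rw [this]
      refine isOpen_biInter_finset fun i _ => ?_
      have hc : Continuous fun x : ι → ZMod 2 => x i := continuous_apply i
      exact (isOpen_discrete {y i}).preimage hc
    obtain ⟨s, hs, hsS⟩ := mem_closure_iff.1 h _ hU (fun i _ => rfl)
    exact ⟨s, hsS, hs⟩
  · intro h
    rw [mem_closure_iff]
    intro U hU hy
    obtain ⟨F, u, hu, hsub⟩ := isOpen_pi_iff.1 hU y hy
    obtain ⟨s, hs, hs'⟩ := h F
    refine ⟨s, hsub ?_, hs⟩
    intro i hi
    rw [hs' i hi]
    exact (hu i hi).2

/-- An `ω`-bounded dense subgroup meets every `G_δ`-set given by countably many coordinates. -/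
theorem exists_of_countable {H : AddSubgroup G} (hd : Dense (H : Set G)) (hω : OmegaBounded H)
    (y : G) (A : Set I) (hA : A.Countable) : ∃ x ∈ H, ∀ i ∈ A, x i = y i := by
  classical
  have h : ∀ F : Finset I, ∃ s : H, ∀ i ∈ F, s.1 i = y i := fun F => by
    obtain ⟨s, hs, hs'⟩ := mem_closure_pi.1 (hd y) F
    exact ⟨⟨s, hs⟩, hs'⟩
  choose s hs using h
  have hD : (s '' {F : Finset I | (F : Set I) ⊆ A}).Countable := by
    refine Set.Countable.image ?_ _
    exact Set.countable_ofPred_finite_subset hA |>.preimage_of_injOn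
      (Finset.coe_injective.injOn) |>.mono (by
        intro F hF
        exact ⟨F.finite_toSet, hF⟩)
  have hK := hω _ hD
  -- project to the coordinates in `A`
  let π : H → (A → ZMod 2) := fun x i => x.1 i
  have hπ : Continuous π := continuous_pi fun i =>
    (continuous_apply i.1).comp continuous_subtype_val
  have hKπ : IsClosed (π '' closure (s '' {F : Finset I | (F : Set I) ⊆ A})) :=
    (hK.image hπ).isClosed
  have hy : (fun i : A => y i) ∈ π '' closure (s '' {F : Finset I | (F : Set I) ⊆ A}) := by
    rw [← hKπ.closure_eq, mem_closure_pi]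
    intro F
    let F' : Finset I := F.map (Function.Embedding.subtype _)
    refine ⟨π (s F'), ⟨s F', subset_closure ⟨F', ?_, rfl⟩, rfl⟩, ?_⟩
    · intro i hi
      obtain ⟨j, -, rfl⟩ := Finset.mem_map.1 (Finset.mem_coe.1 hi)
      exact j.2
    · intro i hi
      exact hs F' i (Finset.mem_map.2 ⟨i, hi, rfl⟩)
  obtain ⟨x, -, hx⟩ := hy
  exact ⟨x.1, x.2, fun i hi => congrFun hx ⟨i, hi⟩⟩

section

variable {H : AddSubgroup G} (hd : Dense (H : Set G)) (hω : OmegaBounded H)

include hd hω in
theorem exists_x (α : I) : ∃ x : H, (∀ β < α, x.1 β = 0) ∧ x.1 α = 1 := by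
  classical
  obtain ⟨x, hx, h⟩ := exists_of_countable hd hω (Pi.single α 1) (Set.Iio α ∪ {α})
    ((countable_Iio α).union (Set.countable_singleton α))
  refine ⟨⟨x, hx⟩, fun β hβ => ?_, ?_⟩
  · rw [show (⟨x, hx⟩ : H).1 β = x β from rfl, h β (Or.inl hβ)]
    exact Pi.single_eq_of_ne hβ.ne _
  · rw [show (⟨x, hx⟩ : H).1 α = x α from rfl, h α (Or.inr rfl)]
    exact Pi.single_eq_same _ _

/-- The closure of the points `x α` together with `0` is compact. -/
theorem isCompact_C (hω : OmegaBounded H) (x : I → H) (hx : ∀ α, ∀ β < α, (x α).1 β = 0) :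
    IsCompact (closure (Set.range x)) := by
  -- it is a closed subset of `G`
  rw [Subtype.isCompact_iff]
  apply IsClosed.isCompact
  rw [← closure_subset_iff_isClosed]
  intro y hy
  have hy' : y ∈ closure (Subtype.val '' Set.range x) := by
    have h1 : Subtype.val '' closure (Set.range x) ⊆ closure (Subtype.val '' Set.range x) :=
      image_closure_subset_closure_image continuous_subtype_val
    exact closure_minimal h1 isClosed_closure hy
  by_cases h0 : y = 0
  · -- `0` is in the closure
    refine ⟨0, ?_, h0.symm⟩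
    rw [mem_closure_iff]
    intro U hU h0U
    obtain ⟨V, hV, rfl⟩ := isOpen_induced_iff.1 hU
    rw [h0] at hy'
    obtain ⟨_, hz, ⟨_, ⟨α, rfl⟩, rfl⟩⟩ := mem_closure_iff.1 hy' V hV h0U
    exact ⟨x α, hz, ⟨α, rfl⟩⟩
  · obtain ⟨γ, hγ⟩ : ∃ γ, y γ ≠ 0 := by
      by_contra hcon
      push Not at hcon
      exact h0 (funext hcon)
    -- only the points with index at most `γ` matter
    have hc : (x '' Set.Iic γ).Countable := by
      refine Set.Countable.image ?_ _
      rw [← Set.Iio_union_right]
      exact (countable_Iio γ).union (Set.countable_singleton γ)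
    have hK := hω _ hc
    have hKc : IsClosed (Subtype.val '' closure (x '' Set.Iic γ) : Set G) :=
      (hK.image continuous_subtype_val).isClosed
    have hmem : y ∈ closure (Subtype.val '' closure (x '' Set.Iic γ) : Set G) := by
      rw [mem_closure_pi]
      intro F
      classical
      obtain ⟨_, ⟨_, ⟨α, rfl⟩, rfl⟩, hs⟩ := mem_closure_pi.1 hy' (insert γ F)
      refine ⟨_, ⟨x α, subset_closure ⟨α, ?_, rfl⟩, rfl⟩,
        fun i hi => hs i (Finset.mem_insert_of_mem hi)⟩
      by_contra hcon
      have h1 := hx α γ (not_le.1 hcon)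
      rw [hs γ (Finset.mem_insert_self _ _)] at h1
      exact hγ h1
    rw [hKc.closure_eq] at hmem
    obtain ⟨z, hz, rfl⟩ := hmem
    exact ⟨z, closure_mono (Set.image_subset_range _ _) hz, rfl⟩

/-- Triangular elimination. -/
theorem eliminate (x : I → H) (hx : ∀ α, (∀ β < α, (x α).1 β = 0) ∧ (x α).1 α = 1)
    (χ : H →+ AddCircle (1 : ℝ)) (hχ : ∀ α, χ (x α) = 0) (F : Finset I) :
    ∀ z : H, ∃ w : H, χ w = 0 ∧ (∀ i ∈ F, (z - w).1 i = 0) ∧
      ∀ i, (∀ j ∈ F, i < j) → w.1 i = 0 := by
  classical
  induction F using Finset.induction_on_min with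
  | empty => exact fun z => ⟨0, map_zero _, by simp, fun i _ => rfl⟩
  | insert α F hα ih =>
    intro z
    -- first kill the coordinate `α`
    by_cases hz : z.1 α = 0
    · obtain ⟨w, hw0, hw1, hw2⟩ := ih z
      refine ⟨w, hw0, ?_, ?_⟩
      · intro i hi
        rcases Finset.mem_insert.1 hi with rfl | hi
        · change z.1 i - w.1 i = 0
          rw [hz, hw2 i hα, sub_zero]
        · exact hw1 i hi
      · intro i hi
        exact hw2 i fun j hj => hi j (Finset.mem_insert_of_mem hj)
    · have hz1 : z.1 α = 1 := by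
        have : ∀ a : ZMod 2, a ≠ 0 → a = 1 := by decide
        exact this _ hz
      obtain ⟨w, hw0, hw1, hw2⟩ := ih (z - x α)
      refine ⟨w + x α, by rw [map_add, hw0, hχ, add_zero], ?_, ?_⟩
      · intro i hi
        rcases Finset.mem_insert.1 hi with rfl | hi
        · change z.1 i - (w.1 i + (x i).1 i) = 0
          rw [hz1, hw2 i hα, (hx i).2, zero_add, sub_self]
        · have := hw1 i hi
          rwa [sub_sub, add_comm (x α) w] at this
      · intro i hi
        change w.1 i + (x α).1 i = 0
        rw [hw2 i fun j hj => hi j (Finset.mem_insert_of_mem hj),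
          (hx α).1 i (hi α (Finset.mem_insert_self _ _)), add_zero]

/-- In `ℝ/ℤ`, an element of order at most two of norm less than `1/4` is zero. -/
theorem eq_zero_of_small (t : AddCircle (1 : ℝ)) (h2 : t + t = 0) (hs : ‖t‖ < 1 / 4) :
    t = 0 := by
  by_contra hne
  have h3 : ‖t‖ = 1 / 2 := by
    induction t using QuotientAddGroup.induction_on with
    | H r =>
      have h4 : ∃ n : ℤ, (n : ℝ) = r + r := by
        have : ((r + r : ℝ) : AddCircle (1 : ℝ)) = 0 := by
          rw [AddCircle.coe_add]; exact h2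
        rw [AddCircle.coe_eq_zero_iff] at this
        obtain ⟨n, hn⟩ := this
        exact ⟨n, by simpa using hn⟩
      obtain ⟨n, hn⟩ := h4
      have hr : r = n / 2 := by linarith
      subst hr
      rcases Int.even_or_odd n with ⟨k, rfl⟩ | ⟨k, rfl⟩
      · exfalso
        apply hne
        have : (((k + k : ℤ) : ℝ) / 2 : ℝ) = k := by push_cast; ring
        rw [this]
        change (((k : ℤ) : ℝ) : AddCircle (1 : ℝ)) = 0
        rw [AddCircle.coe_eq_zero_iff]
        exact ⟨k, by simp⟩
      · change ‖((((2 * k + 1 : ℤ) : ℝ) / 2 : ℝ) : AddCircle (1 : ℝ))‖ = 1 / 2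
        rw [AddCircle.norm_eq]
        have h5 : (((2 * k + 1 : ℤ) : ℝ) / 2 : ℝ) = k + 1 / 2 := by push_cast; ring
        rw [h5]
        have h6 : round (1⁻¹ * ((k : ℝ) + 1 / 2)) = k + 1 := by
          rw [inv_one, one_mul, round_eq, Int.floor_eq_iff]
          push_cast
          constructor <;> linarith
        rw [h6]
        push_cast
        rw [show (k : ℝ) + 1 / 2 - (k + 1) * 1 = -(1 / 2) by ring, abs_neg]
        norm_num
  linarith

theorem add_self_H (z : H) : z + z = 0 := by
  apply Subtype.ext
  funext i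
  change z.1 i + z.1 i = 0
  have : ∀ a : ZMod 2, a + a = 0 := by decide
  exact this _

theorem char_order (χ : H →+ AddCircle (1 : ℝ)) (z : H) : χ z + χ z = 0 := by
  rw [← map_add, add_self_H, map_zero]

/-- A continuous character of `H` is trivial on the elements vanishing on a finite set. -/
theorem exists_finset (χ : H →ₜ+ AddCircle (1 : ℝ)) :
    ∃ F : Finset I, ∀ z : H, (∀ i ∈ F, z.1 i = 0) → χ z = 0 := by
  have hU : IsOpen {z : H | ‖χ z‖ < 1 / 4} :=
    isOpen_lt (continuous_norm.comp χ.continuous_toFun) continuous_const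
  obtain ⟨V, hV, hVe⟩ := isOpen_induced_iff.1 hU
  have h0 : (0 : G) ∈ V := by
    have : (0 : H) ∈ Subtype.val ⁻¹' V := by
      rw [hVe]
      change ‖χ 0‖ < 1 / 4
      rw [map_zero, norm_zero]; norm_num
    exact this
  obtain ⟨F, u, hu, hsub⟩ := isOpen_pi_iff.1 hV _ h0
  refine ⟨F, fun z hz => ?_⟩
  have h1 : z ∈ Subtype.val ⁻¹' V := by
    apply hsub
    intro i hi
    rw [hz i hi]
    exact (hu i hi).2
  rw [hVe] at h1
  exact eq_zero_of_small _ (char_order χ.toAddMonoidHom z) h1

include hd hω in
theorem discrete_dual : DiscreteTopology (H →ₜ+ AddCircle (1 : ℝ)) := by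
  have hx := exists_x hd hω
  choose x hx using hx
  have hC := isCompact_C hω x fun α => (hx α).1
  rw [discreteTopology_iff_isOpen_singleton_zero]
  -- the open set of characters small on `C`
  have hO : IsOpen {χ : H →ₜ+ AddCircle (1 : ℝ) |
      MapsTo χ (closure (Set.range x)) (Metric.ball 0 (1 / 4))} := by
    have h1 := ContinuousMap.isOpen_setOfPred_mapsTo hC
      (Metric.isOpen_ball (x := (0 : AddCircle (1 : ℝ))) (ε := 1 / 4))
    exact h1.preimage (ContinuousAddMonoidHom.isInducing_toContinuousMap _ _).continuous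
  have heq : {χ : H →ₜ+ AddCircle (1 : ℝ) |
      MapsTo χ (closure (Set.range x)) (Metric.ball 0 (1 / 4))} = {0} := by
    ext χ
    rw [Set.mem_singleton_iff]
    constructor
    · intro h
      have h1 : ∀ α, χ (x α) = 0 := fun α => by
        have h2 := h (subset_closure ⟨α, rfl⟩)
        rw [mem_ball_zero_iff] at h2
        exact eq_zero_of_small _ (char_order χ.toAddMonoidHom _) h2
      obtain ⟨F, hF⟩ := exists_finset χ
      ext z
      obtain ⟨w, hw0, hw1, -⟩ := eliminate x hx χ.toAddMonoidHom h1 F z
      have h3 := hF (z - w) hw1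
      have h4 : χ z = χ (z - w) + χ w := by rw [← map_add, sub_add_cancel]
      rw [h4, h3]
      change (0 : AddCircle (1 : ℝ)) + χ.toAddMonoidHom w = 0
      rw [hw0, add_zero]
    · rintro rfl z -
      rw [mem_ball_zero_iff]
      change ‖(0 : AddCircle (1 : ℝ))‖ < 1 / 4
      rw [norm_zero]; norm_num
  rw [← heq]
  exact hO

include hd in
theorem restrict_injective :
    Function.Injective (fun χ : G →ₜ+ AddCircle (1 : ℝ) => χ.comp (incl H)) := by
  intro χ ψ h
  have h1 : Set.EqOn χ ψ (H : Set G) := fun z hz =>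
    congrArg (fun θ : H →ₜ+ AddCircle (1 : ℝ) => θ ⟨z, hz⟩) h
  have h2 := Continuous.ext_on hd χ.continuous_toFun ψ.continuous_toFun h1
  ext z
  exact congrFun h2 z

include hd in
theorem restrict_surjective :
    Function.Surjective (fun χ : G →ₜ+ AddCircle (1 : ℝ) => χ.comp (incl H)) := by
  classical
  intro χ
  obtain ⟨F, hF⟩ := exists_finset χ
  have h : ∀ y : G, ∃ s : H, ∀ i ∈ F, s.1 i = y i := fun y => by
    obtain ⟨s, hs, hs'⟩ := mem_closure_pi.1 (hd y) F
    exact ⟨⟨s, hs⟩, hs'⟩
  choose s hs using h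
  have key : ∀ z w : H, (∀ i ∈ F, z.1 i = w.1 i) → χ z = χ w := by
    intro z w h
    have h1 := hF (z - w) fun i hi => by
      change z.1 i - w.1 i = 0
      rw [h i hi, sub_self]
    rw [map_sub] at h1
    exact sub_eq_zero.1 h1
  let ψ₀ : G →+ AddCircle (1 : ℝ) :=
    { toFun := fun y => χ (s y)
      map_zero' := hF _ fun i hi => hs 0 i hi
      map_add' := by
        intro y y'
        rw [← map_add]
        apply key
        intro i hi
        rw [hs _ i hi]
        change y i + y' i = (s y).1 i + (s y').1 i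
        rw [hs _ i hi, hs _ i hi] }
  have hψ : Continuous ψ₀ := by
    apply continuous_of_continuousAt_zero
    have h1 : {y : G | ∀ i ∈ F, y i = 0} ∈ 𝓝 (0 : G) := by
      apply IsOpen.mem_nhds
      · have : {y : G | ∀ i ∈ F, y i = 0} = ⋂ i ∈ F, {y : G | y i = 0} := by
          ext y; simp
        rw [this]
        refine isOpen_biInter_finset fun i _ => ?_
        have hc : Continuous fun x : G => x i := continuous_apply i
        exact (isOpen_discrete {(0 : ZMod 2)}).preimage hc
      · intro i _; rfl
    have h2 : (fun _ => (0 : AddCircle (1 : ℝ))) =ᶠ[𝓝 (0 : G)] ψ₀ := by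
      filter_upwards [h1] with y hy
      exact (hF (s y) fun i hi => by rw [hs y i hi]; exact hy i hi).symm
    exact continuousAt_const.congr h2
  refine ⟨⟨ψ₀, hψ⟩, ?_⟩
  ext z
  exact key _ _ fun i hi => hs _ i hi

include hd hω in
theorem determines : Determines H := by
  have hdis := discrete_dual hd hω
  refine ⟨?_, ?_, ⟨restrict_injective hd, restrict_surjective hd⟩⟩
  · exact ContinuousAddMonoidHom.continuous_comp_left (incl H)
  · intro U _
    exact isOpen_discrete _

end

theorem not_metrizable : ¬ TopologicalSpace.MetrizableSpace G := by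
  intro h
  have h1 : IsGδ ({fun _ => 1} : Set G) := IsGδ.singleton _
  obtain ⟨U, hU, hUe⟩ := isGδ_iff_eq_iInter_nat.1 h1
  have hmem : (fun _ => 1 : G) ∈ ⋂ n, U n := by rw [← hUe]; rfl
  obtain ⟨x, hx⟩ := Pool.Agent.Q147.WeakPc.gdelta_dense (fun _ => 1 : G) U hU
    fun n => Set.mem_iInter.1 hmem n
  have h2 : x.1 ∈ ⋂ n, U n := Set.mem_iInter.2 hx
  rw [← hUe] at h2
  exact Pool.Agent.Q147.WeakPc.ne_one_of_mem x h2

/-- There is a non-metrizable compact Hausdorff abelian group `G` such that every `ω`-bounded dense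
subgroup of `G` determines `G`. -/
theorem result : ∃ (G : Type) (_ : AddCommGroup G) (_ : TopologicalSpace G),
    IsTopologicalAddGroup G ∧ T2Space G ∧ CompactSpace G ∧ ¬ TopologicalSpace.MetrizableSpace G ∧
    ∀ H : AddSubgroup G, Dense (H : Set G) → OmegaBounded H → Determines H :=
  ⟨G, inferInstance, inferInstance, inferInstance, inferInstance, inferInstance, not_metrizable,
    fun _ hd hω => determines hd hω⟩

end Pool.Agent.Results.MP_04f724_gt.OmegaBoundedDetermine
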